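import Pool.Agent.Helper65.KPV.St

/-! # PROJECT KP, chapter A, part V: module GRO (the first lemmas are copied from Helper41). -/

set_option autoImplicit false

namespace Pool.Agent.Helper91.KPV

private lemma rga_val {P L : Type} [CommRing P] [IsDomain P] [UniqueFactorizationMonoid P]
    [Field L] [Algebra P L] (hinj : Function.Injective (algebraMap P L)) (x : L)
    (halg : IsAlgebraic P x) (hint : ¬ IsIntegral P x) :
    ∃ (g : P) (A : ValuationSubring L), Prime g ∧ (∀ p, algebraMap P L p ∈ A) ∧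
      (∀ p, ¬ g ∣ p → (algebraMap P L p)⁻¹ ∈ A) ∧ x ∉ A := by
  have hfs : FaithfulSMul P L := (faithfulSMul_iff_algebraMap_injective P L).2 hinj
  let K := FractionRing P
  let : Algebra K L := FractionRing.liftAlgebra P L
  have : IsScalarTower P K L := FractionRing.isScalarTower_liftAlgebra P L
  have halgK : IsIntegral K x := (halg.extendScalars (IsFractionRing.injective P K)).isIntegral
  have h1 : ∃ i, (minpoly K x).coeff i ∉ Set.range (algebraMap P K) := by
    by_contra! h
    apply hint
    have hl : minpoly K x ∈ Polynomial.lifts (algebraMap P K) :=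
      (Polynomial.lifts_iff_coeff_lifts _).2 h
    obtain ⟨q, hq, hd, hm⟩ := Polynomial.lifts_and_degree_eq_and_monic hl (minpoly.monic halgK)
    refine ⟨q, hm, ?_⟩
    have h2 : Polynomial.aeval x (q.map (algebraMap P K)) = 0 := by
      rw [hq]; exact minpoly.aeval K x
    rw [Polynomial.aeval_map_algebraMap] at h2
    exact h2
  obtain ⟨i, hi⟩ := h1
  obtain ⟨c, d, hcd, hmk⟩ := IsFractionRing.exists_reduced_fraction (A := P)
    ((minpoly K x).coeff i)
  have hd : ¬ IsUnit (d : P) := by
    intro hu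
    apply hi
    obtain ⟨u, hu⟩ := hu
    refine ⟨c * (u⁻¹ : Pˣ), ?_⟩
    rw [← hmk, eq_comm, IsLocalization.mk'_eq_iff_eq_mul, ← map_mul, ← hu]
    simp
  obtain ⟨g, hg, hgd⟩ := WfDvdMonoid.exists_irreducible_factor hd (nonZeroDivisors.ne_zero d.2)
  have hgp : Prime g := hg.prime
  let p : Ideal P := Ideal.span {g}
  have hpp : p.IsPrime := (Ideal.span_singleton_prime hgp.ne_zero).2 hgp
  have hS : p.primeCompl ≤ nonZeroDivisors P := p.primeCompl_le_nonZeroDivisors
  let R := Localization.subalgebra.ofField K p.primeCompl hS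
  have : IsLocalization p.primeCompl R :=
    Localization.subalgebra.isLocalization_ofField K p.primeCompl hS
  have : IsFractionRing R K := Localization.subalgebra.isFractionRing_ofField K p.primeCompl hS
  have : IsIntegrallyClosed R := isIntegrallyClosed_of_isLocalization R p.primeCompl hS
  have hxR : ¬ IsIntegral R x := by
    intro hx
    have h3 := minpoly.isIntegrallyClosed_eq_field_fractions' K hx
    have h4 : (minpoly K x).coeff i = algebraMap R K ((minpoly R x).coeff i) := by
      rw [h3, Polynomial.coeff_map]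
    have h5 : (minpoly K x).coeff i ∈ R := by
      rw [h4]; exact ((minpoly R x).coeff i).2
    obtain ⟨c', s, hs, h6⟩ := h5
    have hs' : ¬ g ∣ s := fun h => hs (Ideal.mem_span_singleton.2 h)
    have hs0 : algebraMap P K s ≠ 0 := by
      intro h0
      apply hs'
      have : s = 0 := (IsFractionRing.injective P K) (by rw [h0, map_zero])
      rw [this]; exact dvd_zero g
    have hd0 : algebraMap P K (d : P) ≠ 0 := by
      intro h0
      have : (d : P) = 0 := (IsFractionRing.injective P K) (by rw [h0, map_zero])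
      exact nonZeroDivisors.ne_zero d.2 this
    have h7 : c * s = c' * d := by
      apply IsFractionRing.injective P K
      rw [map_mul, map_mul]
      rw [← hmk, IsFractionRing.mk'_eq_div, ← div_eq_mul_inv, div_eq_div_iff hd0 hs0] at h6
      exact h6
    have h8 : g ∣ c * s := by rw [h7]; exact Dvd.dvd.mul_left hgd c'
    rcases hgp.dvd_or_dvd h8 with h9 | h9
    · exact hg.not_isUnit (hcd h9 hgd)
    · exact hs' h9
  let T : Subring L := (integralClosure R L).toSubring
  have hxT : x ∉ T := hxR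
  have : IsIntegrallyClosedIn T L :=
    inferInstanceAs (IsIntegrallyClosedIn (integralClosure R L).toSubring L)
  obtain ⟨A, hA, hxA⟩ := Subring.exists_le_valuationSubring_of_isIntegrallyClosedIn hxT
  have hRA : ∀ r : K, r ∈ R → algebraMap K L r ∈ A := by
    intro r hr
    apply hA
    have h10 : IsIntegral R (algebraMap R L ⟨r, hr⟩) := isIntegral_algebraMap
    exact h10
  refine ⟨g, A, hgp, ?_, ?_, hxA⟩
  · intro q
    rw [IsScalarTower.algebraMap_apply P K L]
    exact hRA _ (R.algebraMap_mem q)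
  · intro q hq
    rw [IsScalarTower.algebraMap_apply P K L, ← map_inv₀]
    apply hRA
    refine ⟨1, q, ?_, ?_⟩
    · intro h; exact hq (Ideal.mem_span_singleton.1 h)
    · rw [map_one, one_mul]

open MvPolynomial in
private lemma rga_mono {L : Type} [Field L] [Algebra ℂ L] (V : ℕ → Submodule ℂ L) (m : ℕ)
    (a : Fin (m + 1 + 1) → L) (hV0 : (1 : L) ∈ V 0)
    (hmul : ∀ k k' f f', f ∈ V k → f' ∈ V k' → f * f' ∈ V (k + k'))
    (ha : ∀ i, a i ∈ V 1) (hai : AlgebraicIndependent ℂ a) (A : ValuationSubring L)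
    (g : MvPolynomial (Fin (m + 1 + 1)) ℂ) (hg : Prime g)
    (hA1 : ∀ p : MvPolynomial (Fin (m + 1 + 1)) ℂ, aeval a p ∈ A) 
    (hA2 : ∀ p : MvPolynomial (Fin (m + 1 + 1)) ℂ, ¬ g ∣ p → (aeval a p)⁻¹ ∈ A) (j : ℕ) :
    ∃ M : Submodule ℂ L, M ≤ V j ∧ (∀ e ∈ M, e ≠ 0 → A.valuation e = 1) ∧
      (j / (m + 1) + 1) ^ m ≤ Module.finrank ℂ M ∧ FiniteDimensional ℂ M := by
  classical
  have hgC : ¬ g.vars = ∅ := by
    intro h
    rw [vars_eq_empty_iff_eq_C] at h
    have h0 : g.coeff 0 ≠ 0 := by
      intro h0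
      apply hg.ne_zero
      rw [h, h0, map_zero]
    apply hg.not_isUnit
    rw [h]
    exact (isUnit_iff_ne_zero.2 h0).map C
  obtain ⟨i₀, hi₀⟩ := Finset.nonempty_iff_ne_empty.2 hgC
  rw [mem_vars_iff_degreeOf_ne_zero] at hi₀
  let Φ : MvPolynomial (Fin (m + 1)) ℂ →ₗ[ℂ] L :=
    (aeval a).toLinearMap ∘ₗ (rename (R := ℂ) i₀.succAbove).toLinearMap
  have hΦ : ∀ q, Φ q = aeval a (rename i₀.succAbove q) := fun q => rfl
  have hΦinj : Function.Injective Φ := by
    intro p q hpq
    have h1 : aeval a (rename i₀.succAbove p) = aeval a (rename i₀.succAbove q) := hpq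
    have h2 := hai h1
    exact rename_injective _ Fin.succAbove_right_injective h2
  have hmon : ∀ (t : ℕ) (e : Fin (m + 1) →₀ ℕ), (∑ l, e l) = t → Φ (monomial e 1) ∈ V t := by
    intro t e he
    have h1 : Φ (monomial e 1) = ∏ l, a (i₀.succAbove l) ^ (e l) := by
      rw [hΦ, rename_monomial, aeval_monomial, map_one, one_mul, Finsupp.prod_mapDomain_index_inj
        Fin.succAbove_right_injective, Finsupp.prod_fintype]
      intro i; rw [pow_zero]
    have hpow : ∀ (i : Fin (m + 1 + 1)) (s : ℕ), a i ^ s ∈ V s := by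
      intro i s
      induction s with
      | zero => rw [pow_zero]; exact hV0
      | succ s ih => rw [pow_succ]; exact hmul s 1 _ _ ih (ha i)
    have h2 : ∀ S : Finset (Fin (m + 1)),
        ∏ l ∈ S, a (i₀.succAbove l) ^ (e l) ∈ V (∑ l ∈ S, e l) := by
      intro S
      induction S using Finset.induction_on with
      | empty => rw [Finset.prod_empty, Finset.sum_empty]; exact hV0
      | insert l S hl ih =>
        rw [Finset.prod_insert hl, Finset.sum_insert hl]
        exact hmul _ _ _ _ (hpow _ _) ih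
    rw [h1, ← he]
    exact h2 Finset.univ
  let w : (Fin m → Fin (j / (m + 1) + 1)) → (Fin (m + 1) →₀ ℕ) := fun f =>
    Finsupp.equivFunOnFinite.symm (Fin.cons (j - ∑ l, (f l : ℕ)) (fun l => (f l : ℕ)))
  have hwinj : Function.Injective w := by
    intro f f' h
    have h1 := Finsupp.equivFunOnFinite.symm.injective h
    have h2 := Fin.cons_injective2 h1
    funext l
    exact Fin.ext (congrFun h2.2 l)
  have hwsum : ∀ f, (∑ l, w f l) = j := by
    intro f
    have h1 : ∀ l, w f l = (Fin.cons (j - ∑ l, (f l : ℕ)) (fun l => (f l : ℕ)) :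
      Fin (m + 1) → ℕ) l := fun l => rfl
    rw [Finset.sum_congr rfl (fun l _ => h1 l), Fin.sum_univ_succ]
    simp only [Fin.cons_zero, Fin.cons_succ]
    apply Nat.sub_add_cancel
    calc ∑ l, (f l : ℕ) ≤ ∑ _l : Fin m, j / (m + 1) :=
          Finset.sum_le_sum (fun l _ => Nat.lt_succ_iff.1 (f l).2)
      _ = m * (j / (m + 1)) := by simp
      _ ≤ (m + 1) * (j / (m + 1)) := Nat.mul_le_mul_right _ (Nat.le_succ m)
      _ ≤ j := Nat.mul_div_le j (m + 1)
  let b : (Fin m → Fin (j / (m + 1) + 1)) → L := fun f => Φ (monomial (w f) 1)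
  have hb : LinearIndependent ℂ b := by
    have h1 : LinearIndependent ℂ (fun f => (basisMonomials (Fin (m + 1)) ℂ) (w f)) :=
      (basisMonomials (Fin (m + 1)) ℂ).linearIndependent.comp w hwinj
    have h2 := h1.map' Φ (LinearMap.ker_eq_bot.2 hΦinj)
    have h3 : b = (⇑Φ ∘ fun f => (basisMonomials (Fin (m + 1)) ℂ) (w f)) := by
      funext f
      simp only [b, Function.comp, coe_basisMonomials]
    rw [h3]
    exact h2
  refine ⟨Submodule.span ℂ (Set.range b), ?_, ?_, ?_, FiniteDimensional.span_of_finite ℂ (Set.finite_range b)⟩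
  · rw [Submodule.span_le]
    rintro _ ⟨f, rfl⟩
    exact hmon j (w f) (hwsum f)
  · intro e he he0
    have h1 : e ∈ LinearMap.range Φ := by
      have h2 : Submodule.span ℂ (Set.range b) ≤ LinearMap.range Φ := by
        rw [Submodule.span_le]
        rintro _ ⟨f, rfl⟩
        exact ⟨_, rfl⟩
      exact h2 he
    obtain ⟨q, rfl⟩ := h1
    have hq0 : q ≠ 0 := by
      rintro rfl; exact he0 (map_zero Φ)
    have hnd : ¬ g ∣ rename i₀.succAbove q := by
      rintro ⟨r, hr⟩
      have hrq : rename i₀.succAbove q ≠ 0 := by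
        intro h
        apply hq0
        apply rename_injective _ (Fin.succAbove_right_injective (p := i₀))
        rw [h, map_zero]
      have hr0 : r ≠ 0 := by
        rintro rfl
        rw [mul_zero] at hr
        exact hrq hr
      have h3 : degreeOf i₀ (rename i₀.succAbove q) = degreeOf i₀ g + degreeOf i₀ r := by
        rw [hr]; exact degreeOf_mul_eq hg.ne_zero hr0
      have h4 : i₀ ∈ (rename i₀.succAbove q).vars := by
        rw [mem_vars_iff_degreeOf_ne_zero, h3]; omega
      obtain ⟨i, -, hi⟩ := mem_vars_rename _ _ h4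
      exact Fin.succAbove_ne i₀ i hi
    have h5 : A.valuation (Φ q) ≤ 1 := (A.valuation_le_one_iff _).2 (hA1 _)
    have h6 : A.valuation (Φ q)⁻¹ ≤ 1 := (A.valuation_le_one_iff _).2 (hA2 _ hnd)
    rw [map_inv₀] at h6
    have h7 : A.valuation (Φ q) ≠ 0 := (Valuation.ne_zero_iff _).2 he0
    apply le_antisymm h5
    rwa [inv_le_one₀ (zero_lt_iff.2 h7)] at h6
  · rw [finrank_span_eq_card hb]
    simp


private lemma rga_int {P R L : Type} [CommRing P] [CommRing R] [CommRing L] [Algebra R L]
    [Algebra P L] (f : P →+* R) (hf : (algebraMap R L).comp f = algebraMap P L) (y : L)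
    (hy : IsIntegral P y) : IsIntegral R y := by
  obtain ⟨q, hq, h⟩ := hy
  exact ⟨q.map f, hq.map f, by rw [Polynomial.eval₂_map, hf]; exact h⟩


open MvPolynomial Pool.Agent.Helper65.KPV Pool.Agent.Helper5.KPA Pool.Agent.Helper52.KP

/-- Module GRO. -/
theorem hGRO : StGRO := by
  intro S _ _ _ B G m a ξ hG hN hB hNB hQ hξ k
  classical
  let P := MvPolynomial (Fin (m + 1 + 1)) ℂ
  let L := FractionRing S
  let ι : S →ₐ[ℂ] L := IsScalarTower.toAlgHom ℂ S L
  have hι : Function.Injective ι := IsFractionRing.injective S L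
  have hGB : ∀ j, ∀ x ∈ G j, x ∈ B := by
    intro j x hx
    have h1 : G j ≤ Subalgebra.toSubmodule B := by
      rw [hB]; exact le_iSup G j
    exact h1 hx
  have haB : ∀ i, a i ∈ B := fun i => hGB 1 _ (hN.mem i)
  let a' : Fin (m + 1 + 1) → L := fun i => ι (a i)
  have hai : AlgebraicIndependent ℂ a' := hN.ai.map' hι
  have hev : ∀ p : P, aeval a' p = ι (aeval a p) := by
    intro p
    have h1 : (aeval a' : P →ₐ[ℂ] L) = ι.comp (aeval a) := by
      apply MvPolynomial.algHom_ext
      intro i
      simp [a']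
    rw [h1]
    rfl
  let _ : Algebra P L := (aeval a').toRingHom.toAlgebra
  have halgmap : ∀ p : P, algebraMap P L p = aeval a' p := fun p => rfl
  have hsmul : ∀ (p : P) (x : L), p • x = aeval a' p * x := fun p x => rfl
  have hinj : Function.Injective (algebraMap P L) := hai
  -- the finitely generated module
  obtain ⟨D, hD⟩ := hN.fg
  have hfg : ∀ j, ∃ s : Finset S, Submodule.span ℂ (s : Set S) = G j := by
    intro j
    have := hG.fd j
    exact Module.Finite.iff_fg.1 this
  choose s hs using hfg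
  let T : Finset L := (Finset.range (D + 1)).biUnion fun j => (s j).image ι
  let N : Submodule P L := Submodule.span P (T : Set L)
  have hNsmul : ∀ (c : ℂ) (x : L), x ∈ N → c • x ∈ N := by
    intro c x hx
    have h1 : c • x = (C c : P) • x := by
      rw [hsmul, aeval_C, Algebra.smul_def]
    rw [h1]
    exact N.smul_mem _ hx
  have hG1 : ∀ j, j ≤ D → ∀ x ∈ G j, ι x ∈ N := by
    intro j hj x hx
    rw [← hs j] at hx
    induction hx using Submodule.span_induction with
    | mem x hx =>
      apply Submodule.subset_span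
      rw [Finset.mem_coe, Finset.mem_biUnion]
      exact ⟨j, Finset.mem_range.2 (by omega), Finset.mem_image_of_mem ι hx⟩
    | zero => rw [map_zero]; exact N.zero_mem
    | add x y _ _ hx hy => rw [map_add]; exact N.add_mem hx hy
    | smul c x _ hx => rw [map_smul]; exact hNsmul c _ hx
  have hG2 : ∀ j, ∀ x ∈ G j, ι x ∈ N := by
    intro j
    induction j with
    | zero => exact hG1 0 (Nat.zero_le _)
    | succ j ih =>
      intro x hx
      by_cases hj : j + 1 ≤ D
      · exact hG1 _ hj x hx
      · obtain ⟨y, hy, rfl⟩ := hD j (by omega) x hx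
        rw [map_sum]
        refine N.sum_mem fun i _ => ?_
        have h1 : ι (a i * y i) = (X i : P) • ι (y i) := by
          rw [hsmul, aeval_X, map_mul]
        rw [h1]
        exact N.smul_mem _ (ih _ (hy i))
  have hB1 : ∀ y, y ∈ (⨆ j, G j) → ι y ∈ N := by
    intro y h1
    induction h1 using Submodule.iSup_induction' with
    | mem j x hx => exact hG2 j x hx
    | zero => rw [map_zero]; exact N.zero_mem
    | add x y hx' hy' hx hy =>
      rw [map_add]
      exact N.add_mem hx hy
  have hB2 : ∀ y ∈ B, ι y ∈ N := by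
    intro y hy
    apply hB1
    rw [← hB]
    exact hy
  have hstab : ∀ y ∈ B, ∀ n ∈ N, ι y • n ∈ N := by
    intro y hy n hn
    induction hn using Submodule.span_induction with
    | mem n hn =>
      rw [Finset.mem_coe, Finset.mem_biUnion] at hn
      obtain ⟨j, -, hn⟩ := hn
      obtain ⟨g, hg, rfl⟩ := Finset.mem_image.1 hn
      have h1 : g ∈ G j := by
        rw [← hs j]; exact Submodule.subset_span hg
      rw [smul_eq_mul, ← map_mul]
      exact hB2 _ (B.mul_mem hy (hGB j g h1))
    | zero => rw [smul_zero]; exact N.zero_mem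
    | add u v _ _ hu hv => rw [smul_add]; exact N.add_mem hu hv
    | smul p u _ hu =>
      rw [smul_eq_mul] at hu ⊢
      have h1 : ι y * p • u = p • (ι y * u) := by
        rw [hsmul, hsmul]; ring
      rw [h1]
      exact N.smul_mem _ hu
  have hN0 : N ≠ ⊥ := by
    intro h
    have h1 := hB2 1 B.one_mem
    rw [h, Submodule.mem_bot, map_one] at h1
    exact one_ne_zero h1
  have hintP : ∀ y ∈ B, IsIntegral P (ι y) := by
    intro y hy
    exact isIntegral_of_smul_mem_submodule N hN0 ⟨T, rfl⟩ (ι y) (hstab y hy)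
  obtain ⟨x, hx⟩ : ∃ x : L, x = ι ξ := ⟨_, rfl⟩
  have halg : IsAlgebraic P x := by
    obtain ⟨t, ht, ht0, htξ⟩ := hQ
    have h0 : ι t ≠ 0 := by
      intro h
      exact ht0 (hι (by rw [h, map_zero]))
    have h1 : x = ι (t * ξ) * (ι t)⁻¹ := by
      rw [map_mul, ← hx, mul_comm (ι t) x, mul_assoc, mul_inv_cancel₀ h0, mul_one]
    rw [h1]
    exact (hintP _ htξ).isAlgebraic.mul (hintP t ht).isAlgebraic.inv
  have hPB : ∀ p : P, aeval a p ∈ B := by
    intro p
    have h1 : Algebra.adjoin ℂ (Set.range a) ≤ B := by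
      rw [Algebra.adjoin_le_iff]
      rintro _ ⟨i, rfl⟩
      exact haB i
    apply h1
    rw [Algebra.adjoin_range_eq_range_aeval]
    exact ⟨p, rfl⟩
  have hnint : ¬ IsIntegral P x := by
    rintro ⟨q, hq, h⟩
    apply hξ
    apply hNB.ic ξ hQ
    let f : P →+* B := ((aeval a : P →ₐ[ℂ] S) : P →+* S).codRestrict B hPB
    refine ⟨q.map f, hq.map f, ?_⟩
    rw [Polynomial.eval₂_map]
    apply hι
    rw [map_zero, ← h]
    change (ι : S →+* L) (Polynomial.eval₂ ((algebraMap B S).comp f) ξ q) = _
    rw [Polynomial.hom_eval₂, hx]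
    congr 1
    ext z
    · simp [f, halgmap, hev]
    · simp [f, halgmap, hev]
  obtain ⟨g, A, hg, hA1, hA2, hxA⟩ := rga_val hinj x halg hnint
  have hBA : ∀ y ∈ B, A.valuation (ι y) ≤ 1 := by
    intro y hy
    rw [A.valuation_le_one_iff]
    have h1 := hintP y hy
    let f : P →+* A := (algebraMap P L).codRestrict A hA1
    have h2 : IsIntegral A (ι y) := by
      refine rga_int f ?_ _ h1
      ext z <;> rfl
    obtain ⟨z, hz⟩ := IsIntegrallyClosed.isIntegral_iff.1 h2
    rw [← hz]
    exact z.2
  let V : ℕ → Submodule ℂ L := fun j => (G j).map ι.toLinearMap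
  have h1V : (1 : L) ∈ V 0 := by
    refine ⟨1, ?_, map_one ι⟩
    have h1 : (1 : S) ∈ G 0 := by
      rw [hG.zero]; exact Submodule.mem_span_singleton_self 1
    exact h1
  have hmulV : ∀ j j' f f', f ∈ V j → f' ∈ V j' → f * f' ∈ V (j + j') := by
    rintro j j' _ _ ⟨u, hu, rfl⟩ ⟨v, hv, rfl⟩
    exact ⟨u * v, hG.mul j j' u v hu hv, map_mul ι u v⟩
  have haV : ∀ i, a' i ∈ V 1 := fun i => ⟨a i, hN.mem i, rfl⟩
  obtain ⟨M', hM'V, hM'v, hM'f, -⟩ := rga_mono V m a' h1V hmulV haV hai A g hg hA1 hA2 k
  refine ⟨M'.comap ι.toLinearMap, ?_, ?_, ?_⟩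
  · intro e he
    obtain ⟨u, hu, hue⟩ := hM'V he
    have : u = e := hι hue
    rw [← this]
    exact hu
  · intro e he he0 heξ
    apply hxA
    rw [← A.valuation_le_one_iff]
    have h1 := hBA _ heξ
    rw [map_mul, map_mul, ← hx] at h1
    have h0 : ι e ≠ 0 := by
      intro h
      exact he0 (hι (by rw [h, map_zero]))
    rw [hM'v (ι e) he h0, one_mul] at h1
    exact h1
  · have h1 : (M'.comap ι.toLinearMap).map ι.toLinearMap = M' := by
      apply Submodule.map_comap_eq_of_le
      intro e he
      obtain ⟨u, hu, hue⟩ := hM'V he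
      exact ⟨u, hue⟩
    have h2 := (Submodule.equivMapOfInjective ι.toLinearMap hι (M'.comap ι.toLinearMap)).finrank_eq
    have h3 : Module.finrank ℂ ((M'.comap ι.toLinearMap).map ι.toLinearMap)
        = Module.finrank ℂ M' := by
      rw [h1]
    rw [h2, h3]
    exact hM'f

end Pool.Agent.Helper91.KPV
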